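import Mathlib
import Pool.Agent.Y734.I.Defs

/-!
# Comparison of transcendence degrees of points (helper748)
-/

set_option autoImplicit false

namespace Pool.Agent.Y734.I.NV

open MvPolynomial

/-- homogenisation of a polynomial in the coordinates divided by the `j`-th one -/
lemma homog {N : ℕ} (j : Fin (N + 1)) (F : MvPolynomial (Fin (N + 1)) ℚ) :
    ∃ Φ : MvPolynomial (Fin (N + 1)) ℚ, Φ.IsHomogeneous F.totalDegree ∧
      ∀ (κ : Type) [Field κ] [Algebra ℚ κ] (x : Fin (N + 1) → κ), x j ≠ 0 →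
        aeval x Φ = x j ^ F.totalDegree * aeval (fun i => x i / x j) F := by
  classical
  have hle : ∀ d ∈ F.support, d.degree ≤ F.totalDegree := by
    intro d hd
    rw [Finsupp.degree_apply]
    exact le_totalDegree hd
  refine ⟨∑ d ∈ F.support, monomial (d + Finsupp.single j (F.totalDegree - d.degree)) (coeff d F),
    ?_, ?_⟩
  · apply IsHomogeneous.sum
    intro d hd
    apply isHomogeneous_monomial
    rw [map_add, Finsupp.degree_single]
    have := hle d hd
    omega
  · intro κ _ _ x hx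
    have hF : aeval (fun i => x i / x j) F =
        ∑ d ∈ F.support, aeval (fun i => x i / x j) (monomial d (coeff d F)) := by
      rw [← map_sum, ← F.as_sum]
    rw [hF, map_sum, Finset.mul_sum]
    refine Finset.sum_congr rfl fun d hd => ?_
    rw [aeval_monomial, aeval_monomial]
    have h1 : ((d + Finsupp.single j (F.totalDegree - d.degree)).prod fun i e => x i ^ e) =
        (d.prod fun i e => x i ^ e) * x j ^ (F.totalDegree - d.degree) := by
      rw [Finsupp.prod_add_index' (by intro i; simp) (by intro i a b; rw [pow_add]),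
        Finsupp.prod_single_index (by simp)]
    have h2 : (d.prod fun i e => (x i / x j) ^ e) = (d.prod fun i e => x i ^ e) / x j ^ d.degree := by
      rw [Finsupp.prod, Finsupp.prod, Finsupp.degree_apply]
      simp only [div_pow]
      rw [Finset.prod_div_distrib, Finset.prod_pow_eq_pow_sum]
    rw [h1, h2]
    have h3 : x j ^ F.totalDegree = x j ^ (F.totalDegree - d.degree) * x j ^ d.degree := by
      rw [← pow_add, Nat.sub_add_cancel (hle d hd)]
    rw [h3]
    have h4 : x j ^ d.degree ≠ 0 := pow_ne_zero _ hx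
    field_simp

lemma adjoin_rat {κ : Type} [Field κ] [Algebra ℚ κ] {N : ℕ} (x : Fin (N + 1) → κ)
    (j : Fin (N + 1)) (hj : x j ≠ 0) :
    IntermediateField.adjoin ℚ (rat x) =
      IntermediateField.adjoin ℚ (Set.range fun i => x i / x j) := by
  apply le_antisymm
  · rw [IntermediateField.adjoin_le_iff]
    rintro y ⟨a, b, rfl⟩
    have ha : x a / x j ∈ IntermediateField.adjoin ℚ (Set.range fun i => x i / x j) :=
      IntermediateField.subset_adjoin _ _ ⟨a, rfl⟩
    have hb : x b / x j ∈ IntermediateField.adjoin ℚ (Set.range fun i => x i / x j) :=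
      IntermediateField.subset_adjoin _ _ ⟨b, rfl⟩
    have h := div_mem ha hb
    rwa [div_div_div_cancel_right₀ hj] at h
  · rw [IntermediateField.adjoin_le_iff]
    rintro y ⟨a, rfl⟩
    exact IntermediateField.subset_adjoin _ _ ⟨a, j, rfl⟩

theorem mono_aux (κ' κ₁ : Type) [Field κ'] [Algebra ℚ κ'] [Field κ₁] [Algebra ℚ κ₁] (N : ℕ)
    (x' : Fin (N + 1) → κ') (x₁ : Fin (N + 1) → κ₁) (h₁ : x₁ ≠ 0)
    (h : ∀ (d : ℕ) (Φ : MvPolynomial (Fin (N + 1)) ℚ), Φ.IsHomogeneous d →
        aeval x' Φ = 0 → aeval x₁ Φ = 0) : trd (rat x₁) ≤ trd (rat x') := by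
  classical
  obtain ⟨j, hj⟩ := Function.ne_iff.1 h₁
  rw [Pi.zero_apply] at hj
  have hj' : x' j ≠ 0 := by
    intro h0
    apply hj
    have := h 1 (X j) (isHomogeneous_X ℚ j) (by rw [aeval_X]; exact h0)
    rwa [aeval_X] at this
  set u' : Fin (N + 1) → κ' := fun i => x' i / x' j with hu'
  set u₁ : Fin (N + 1) → κ₁ := fun i => x₁ i / x₁ j with hu₁
  have key : ∀ F : MvPolynomial (Fin (N + 1)) ℚ, aeval u' F = 0 → aeval u₁ F = 0 := by
    intro F hF
    obtain ⟨Φ, hΦ, hΦ2⟩ := homog j F
    have h1 : aeval x' Φ = 0 := by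
      rw [hΦ2 κ' x' hj']
      change _ * aeval u' F = 0
      rw [hF, mul_zero]
    have h2 := h _ Φ hΦ h1
    rw [hΦ2 κ₁ x₁ hj] at h2
    exact (mul_eq_zero.1 h2).resolve_left (pow_ne_zero _ hj)
  have hcongr : ∀ (κ : Type) [Field κ] [Algebra ℚ κ] (A B : IntermediateField ℚ κ), A = B →
      Algebra.trdeg ℚ A = Algebra.trdeg ℚ B := by
    intro κ _ _ A B hAB
    rw [hAB]
  have e₁ := hcongr κ₁ _ _ (adjoin_rat x₁ j hj)
  have e' := hcongr κ' _ _ (adjoin_rat x' j hj')
  rw [trd, trd, e₁, e']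
  let K₁ : IntermediateField ℚ κ₁ := IntermediateField.adjoin ℚ (Set.range u₁)
  let K' : IntermediateField ℚ κ' := IntermediateField.adjoin ℚ (Set.range u')
  change Algebra.trdeg ℚ K₁ ≤ Algebra.trdeg ℚ K'
  let v₁ : Fin (N + 1) → K₁ := fun i => ⟨u₁ i, IntermediateField.subset_adjoin _ _ ⟨i, rfl⟩⟩
  let v' : Fin (N + 1) → K' := fun i => ⟨u' i, IntermediateField.subset_adjoin _ _ ⟨i, rfl⟩⟩
  have hv₁ : ∀ F : MvPolynomial (Fin (N + 1)) ℚ, ((aeval v₁ F : K₁) : κ₁) = aeval u₁ F := by
    intro F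
    let f : K₁ →+* κ₁ := K₁.toSubfield.subtype
    exact MvPolynomial.comp_aeval_apply v₁ f.toRatAlgHom F
  have hv' : ∀ F : MvPolynomial (Fin (N + 1)) ℚ, ((aeval v' F : K') : κ') = aeval u' F := by
    intro F
    let f : K' →+* κ' := K'.toSubfield.subtype
    exact MvPolynomial.comp_aeval_apply v' f.toRatAlgHom F
  have halg : Algebra.IsAlgebraic (Algebra.adjoin ℚ (Set.range v₁)) K₁ := by
    refine ⟨fun z => ?_⟩
    obtain ⟨a, b, hab⟩ := (IntermediateField.mem_adjoin_range_iff ℚ u₁ z.1).1 z.2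
    have hz : z = aeval v₁ a / aeval v₁ b := by
      apply Subtype.ext
      rw [hab, ← hv₁, ← hv₁]
      rfl
    have hmem : ∀ F : MvPolynomial (Fin (N + 1)) ℚ,
        aeval v₁ F ∈ Algebra.adjoin ℚ (Set.range v₁) := by
      intro F
      rw [Algebra.adjoin_range_eq_range_aeval]
      exact ⟨F, rfl⟩
    have hal : ∀ F : MvPolynomial (Fin (N + 1)) ℚ,
        IsAlgebraic (Algebra.adjoin ℚ (Set.range v₁)) (aeval v₁ F) := fun F =>
      isAlgebraic_algebraMap (⟨_, hmem F⟩ : Algebra.adjoin ℚ (Set.range v₁))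
    rw [hz, div_eq_mul_inv]
    exact (hal a).mul (hal b).inv
  obtain ⟨t, ht, hbasis⟩ := exists_isTranscendenceBasis_subset (R := ℚ) (Set.range v₁)
  rw [← hbasis.cardinalMk_eq_trdeg]
  choose i hi using fun a : t => ht a.2
  have hind : AlgebraicIndependent ℚ fun a : t => v' (i a) := by
    rw [algebraicIndependent_iff]
    intro F hF
    have h1 : aeval v' (rename i F) = 0 := by
      rw [aeval_rename]
      exact hF
    have h2 : aeval u' (rename i F) = 0 := by
      rw [← hv', h1]
      rfl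
    have h3 := key _ h2
    have h4 : aeval v₁ (rename i F) = 0 := by
      apply Subtype.ext
      rw [hv₁, h3]
      rfl
    rw [aeval_rename] at h4
    have h5 : (v₁ ∘ i) = (Subtype.val : t → K₁) := by
      funext a
      exact hi a
    rw [h5] at h4
    exact algebraicIndependent_iff.1 hbasis.1 F h4
  exact hind.cardinalMk_le_trdeg

end Pool.Agent.Y734.I.NV
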