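import Mathlib
import Pool.Agent.Y734.I.Defs

/-!
# Reduction of tuples of points along valuation rings (helper748)
-/

set_option autoImplicit false

namespace Pool.Agent.Y734.I.NV

open MvPolynomial

/-- reduction along a valuation ring -/
theorem red_aux (κ : Type) [Field κ] [Algebra ℚ κ] (N r : ℕ) (P : Fin r → Fin (N + 1) → κ)
    (hP : ∀ k, P k ≠ 0) (V : ValuationSubring κ) (hV : ∀ a : ℚ, algebraMap ℚ κ a ∈ V) :
    ∃ (κ₁ : Type) (_ : Field κ₁) (_ : Algebra ℚ κ₁) (P₁ : Fin r → Fin (N + 1) → κ₁)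
      (s : Sp P P₁), s.V = V := by
  classical
  have hmax : ∀ k, ∃ j, ∀ j', V.valuation (P k j') ≤ V.valuation (P k j) := fun k =>
    Finite.exists_max fun j => V.valuation (P k j)
  choose m hm using hmax
  have hne : ∀ k, P k (m k) ≠ 0 := by
    intro k h0
    apply hP k
    funext j
    have h1 := hm k j
    rw [h0, map_zero] at h1
    exact (map_eq_zero V.valuation).1 (le_antisymm h1 zero_le)
  have hmem : ∀ k j, (P k (m k))⁻¹ * P k j ∈ V := by
    intro k j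
    rw [← V.valuation_le_one_iff, map_mul, map_inv₀]
    have h0 : 0 < V.valuation (P k (m k)) := by
      rw [zero_lt_iff]
      exact (map_ne_zero V.valuation).2 (hne k)
    rw [inv_mul_le_iff₀ h0, mul_one]
    exact hm k j
  let e : ℚ →+* V := (algebraMap ℚ κ).codRestrict V.toSubring hV
  letI : Algebra ℚ (IsLocalRing.ResidueField V) :=
    ((IsLocalRing.residue V).comp e).toAlgebra
  refine ⟨IsLocalRing.ResidueField V, inferInstance, inferInstance,
    fun k j => IsLocalRing.residue V ⟨(P k (m k))⁻¹ * P k j, hmem k j⟩,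
    ⟨V, IsLocalRing.residue V, ?_, fun k => (P k (m k))⁻¹, hmem, fun _ _ => rfl, ?_⟩, rfl⟩
  · intro x hx
    exact (IsLocalRing.residue_ne_zero_iff_isUnit x).1 hx
  · intro k h0
    have h1 := congrFun h0 (m k)
    have h2 : (⟨(P k (m k))⁻¹ * P k (m k), hmem k (m k)⟩ : V) = 1 := by
      apply Subtype.ext
      exact inv_mul_cancel₀ (hne k)
    simp only [h2, map_one, Pi.zero_apply] at h1
    exact one_ne_zero h1

lemma ev_red {κ κ₁ : Type} [Field κ] [Algebra ℚ κ] [Field κ₁] [Algebra ℚ κ₁] {N r : ℕ}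
    {P : Fin r → Fin (N + 1) → κ} {P₁ : Fin r → Fin (N + 1) → κ₁} (s : Sp P P₁)
    (l : Fin (N + 1) → ℚ) (k : Fin r) :
    ∃ h : s.c k * ev l (P k) ∈ s.V, ev l (P₁ k) = s.ρ ⟨_, h⟩ := by
  classical
  haveI : CharZero κ₁ := algebraRat.charZero κ₁
  haveI : CharZero κ := algebraRat.charZero κ
  have hV : ∀ a : ℚ, algebraMap ℚ κ a ∈ s.V := by
    intro a
    have hint : ∀ n : ℤ, (n : κ) ∈ s.V := fun n => intCast_mem s.V n
    have hnat : ∀ n : ℕ, n ≠ 0 → ((n : κ))⁻¹ ∈ s.V := by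
      intro n hn
      have h1 : s.ρ ((n : ℕ) : s.V) ≠ 0 := by
        rw [map_natCast]
        exact_mod_cast hn
      obtain ⟨u, hu⟩ := s.unit _ h1
      have h2 : ((u⁻¹ : s.Vˣ) : s.V).1 = ((n : κ))⁻¹ := by
        have h3 : ((u : s.V) * ((u⁻¹ : s.Vˣ) : s.V)) = 1 := u.mul_inv
        rw [hu] at h3
        have h4 := congrArg Subtype.val h3
        have h5 : (n : κ) * ((u⁻¹ : s.Vˣ) : s.V).1 = 1 := by
          simpa using h4
        exact eq_inv_of_mul_eq_one_right h5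
      rw [← h2]
      exact ((u⁻¹ : s.Vˣ) : s.V).2
    have h : algebraMap ℚ κ a = (a.num : κ) * ((a.den : κ))⁻¹ := by
      rw [eq_ratCast, ← div_eq_mul_inv]
      exact Rat.cast_def a
    rw [h]
    exact mul_mem (hint _) (hnat _ a.den_ne_zero)
  let e : ℚ →+* s.V := (algebraMap ℚ κ).codRestrict s.V.toSubring hV
  have he : ∀ a, s.ρ (e a) = algebraMap ℚ κ₁ a := by
    intro a
    have : (s.ρ.comp e) = algebraMap ℚ κ₁ := Subsingleton.elim _ _
    rw [← this]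
    rfl
  have hs : s.c k * ev l (P k) = ((∑ j, e (l j) * ⟨s.c k * P k j, s.mem k j⟩ : s.V) : κ) := by
    rw [ev, Finset.mul_sum]
    push_cast
    refine Finset.sum_congr rfl fun j _ => ?_
    change s.c k * (algebraMap ℚ κ (l j) * P k j) = algebraMap ℚ κ (l j) * (s.c k * P k j)
    ring
  refine ⟨hs ▸ (∑ j, e (l j) * ⟨s.c k * P k j, s.mem k j⟩ : s.V).2, ?_⟩
  have h2 : (⟨s.c k * ev l (P k), hs ▸ (∑ j, e (l j) * ⟨s.c k * P k j, s.mem k j⟩ : s.V).2⟩ : s.V)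
      = ∑ j, e (l j) * ⟨s.c k * P k j, s.mem k j⟩ := Subtype.ext hs
  rw [h2, map_sum, ev]
  refine Finset.sum_congr rfl fun j _ => ?_
  rw [map_mul, he, s.eq]

theorem nv_aux (κ : Type) [Field κ] [Algebra ℚ κ] (N r : ℕ) (P : Fin r → Fin (N + 1) → κ)
    (hP : ∀ k, P k ≠ 0) (k₁ : IntermediateField ℚ κ) (k : Fin r) (l : Fin (N + 1) → ℚ)
    (hl : ev l (P k) ≠ 0) (j : Fin (N + 1)) (hj : ¬ IsAlgebraic k₁ (P k j / ev l (P k))) :
    ∃ (κ₁ : Type) (_ : Field κ₁) (_ : Algebra ℚ κ₁) (P₁ : Fin r → Fin (N + 1) → κ₁)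
      (s : Sp P P₁), (∀ x ∈ k₁, x ∈ s.V) ∧ ev l (P₁ k) = 0 := by
  classical
  set y : κ := P k j / ev l (P k) with hy
  have hy0 : y ≠ 0 := by
    intro h
    apply hj
    rw [h]
    exact isAlgebraic_zero
  have hPj : P k j ≠ 0 := by
    intro h
    apply hy0
    rw [hy, h, zero_div]
  have hj' : ¬ IsAlgebraic k₁ y⁻¹ := fun h => hj (by simpa using h.inv)
  let A : Subalgebra k₁ κ := Algebra.adjoin k₁ {y⁻¹}
  let I : Ideal A.toSubring := Ideal.span {⟨y⁻¹, Algebra.subset_adjoin rfl⟩}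
  have hI : I ≠ ⊤ := by
    intro h
    rw [Ideal.eq_top_iff_one, Ideal.mem_span_singleton'] at h
    obtain ⟨a, ha⟩ := h
    have ha' : a.1 * y⁻¹ = 1 := congrArg Subtype.val ha
    have haA : a.1 ∈ Algebra.adjoin k₁ {y⁻¹} := a.2
    rw [Algebra.adjoin_singleton_eq_range_aeval] at haA
    obtain ⟨f, hf⟩ := haA
    apply hj'
    refine ⟨f * Polynomial.X - 1, ?_, ?_⟩
    · intro h0
      have := congrArg (Polynomial.eval 0) h0
      simp at this
    · have hf' : Polynomial.aeval y⁻¹ f = a.1 := hf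
      rw [map_sub, map_mul, Polynomial.aeval_X, map_one, hf', ha', sub_self]
  obtain ⟨V, hAV, hV⟩ := Ideal.image_subset_nonunits_valuationSubring I hI
  have hk₁ : ∀ x ∈ k₁, x ∈ V := by
    intro x hx
    apply hAV
    exact A.algebraMap_mem ⟨x, hx⟩
  have hynon : y⁻¹ ∈ V.nonunits := by
    apply hV
    exact ⟨⟨y⁻¹, Algebra.subset_adjoin rfl⟩, Ideal.subset_span rfl, rfl⟩
  obtain ⟨κ₁, i1, i2, P₁, s, hs⟩ := red_aux κ N r P hP V fun a => hk₁ _ (algebraMap_mem k₁ a)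
  refine ⟨κ₁, i1, i2, P₁, s, ?_, ?_⟩
  · rw [hs]
    exact hk₁
  · obtain ⟨h, hev⟩ := ev_red s l k
    rw [hev]
    have hyV : y⁻¹ ∈ s.V.nonunits := by rw [hs]; exact hynon
    have hyV' : y⁻¹ ∈ s.V := ValuationSubring.nonunits_le hyV
    have h1 : (⟨s.c k * ev l (P k), h⟩ : s.V) = ⟨s.c k * P k j, s.mem k j⟩ * ⟨y⁻¹, hyV'⟩ := by
      apply Subtype.ext
      change s.c k * ev l (P k) = s.c k * P k j * y⁻¹
      rw [hy, inv_div]
      field_simp
    rw [h1, map_mul]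
    have h2 : s.ρ ⟨y⁻¹, hyV'⟩ = 0 := by
      by_contra h3
      have h4 := s.unit _ h3
      have h5 : (⟨y⁻¹, hyV'⟩ : s.V) ∈ IsLocalRing.maximalIdeal s.V :=
        ValuationSubring.coe_mem_nonunits_iff.1 hyV
      exact h5 h4
    rw [h2, mul_zero]

end Pool.Agent.Y734.I.NV
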