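import Pool.Agent.Y734.I.Stms
import Pool.Agent.Y734.I.NV.Red
import Pool.Agent.Y734.I.NV.Mono

/-!
# Job NV: reduction of points along valuation rings (helper748)
-/

set_option autoImplicit false

namespace Pool.Agent.Y734.I.NV

open Pool.Agent.Y734.I

theorem red : RedStmt := red_aux

theorem nv : NvStmt := nv_aux

theorem mono : MonoStmt := mono_aux

end Pool.Agent.Y734.I.NV
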